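import Pool.Agent.Helper67.NO.St1

/-!
# Project NO (MP_26be5b_ag), module ALG: trace identities
-/

set_option autoImplicit false

namespace Pool.Agent.Helper9.NO

open Pool.Agent.Helper67.NO
open Matrix
open scoped Matrix.Norms.Frobenius ContDiff Topology

variable {n : Type} [Fintype n]

theorem cyc3 (a b c : Matrix n n ℂ) : trace (a * b * c) = trace (b * c * a) := by
  rw [mul_assoc, trace_mul_comm]

theorem cyc4 (a b c d : Matrix n n ℂ) : trace (a * b * c * d) = trace (b * c * d * a) := by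
  rw [show a * b * c * d = a * (b * c * d) by simp only [mul_assoc], trace_mul_comm]

theorem br_conj (x y : Matrix n n ℂ) : (br x y)ᴴ = br yᴴ xᴴ := by
  unfold br
  rw [conjTranspose_sub, conjTranspose_mul, conjTranspose_mul]

theorem id1 (x y a b : Matrix n n ℂ) :
    trace (br x a * br y b) - trace (br x b * br y a) = trace (br x y * br a b) := by
  unfold br
  simp only [sub_mul, mul_sub, trace_sub, ← mul_assoc]
  rw [cyc4 b x a y, cyc4 a x b y, cyc4 b x y a, cyc4 a x y b, ← cyc4 y x a b, ← cyc4 y x b a]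
  ring

theorem id2 (x a v : Matrix n n ℂ) : trace ((br x a)ᴴ * v) = trace (xᴴ * br v aᴴ) := by
  rw [br_conj]
  unfold br
  simp only [sub_mul, mul_sub, trace_sub, ← mul_assoc]
  rw [cyc3 aᴴ xᴴ v]

theorem id5 (x y a c : Matrix n n ℂ) :
    trace (x * br (br y a) c) - trace (y * br (br x a) c) = trace (br x y * br a c) := by
  unfold br
  simp only [sub_mul, mul_sub, trace_sub, ← mul_assoc]
  rw [cyc4 y c x a, cyc4 c x a y, cyc4 y a x c, cyc4 a x c y, ← cyc4 y x c a, cyc4 y c a x, cyc4 c a x y,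
    cyc4 a x y c]
  ring

theorem id7 (x a : Matrix n n ℂ) : trace (aᴴ * br x a) = trace (x * br a aᴴ) := by
  unfold br
  simp only [mul_sub, trace_sub, ← mul_assoc]
  rw [cyc3 aᴴ x a, cyc3 x aᴴ a]

theorem tr_sq (a : Matrix n n ℂ) : trace (aᴴ * a) = ((‖a‖ ^ 2 : ℝ) : ℂ) := by
  have h1 : ‖a‖ ^ 2 = ∑ i, ∑ j, ‖a i j‖ ^ 2 := by
    have h0 : 0 ≤ ∑ i, ∑ j, ‖a i j‖ ^ (2 : ℝ) := Finset.sum_nonneg fun i _ => Finset.sum_nonneg fun j _ =>
      Real.rpow_nonneg (norm_nonneg _) _
    rw [frobenius_norm_def, ← Real.sqrt_eq_rpow, Real.sq_sqrt h0]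
    apply Finset.sum_congr rfl
    intro i _
    apply Finset.sum_congr rfl
    intro j _
    rw [Real.rpow_two]
  rw [h1]
  simp only [trace, diag_apply, mul_apply, conjTranspose_apply]
  push_cast
  rw [Finset.sum_comm]
  apply Finset.sum_congr rfl
  intro i _
  apply Finset.sum_congr rfl
  intro j _
  rw [Complex.star_def, ← Complex.normSq_eq_conj_mul_self, Complex.normSq_eq_norm_sq]
  push_cast
  rfl

/-- ALG -/
theorem pALG : StALG := by
  intro n _ _
  have h2 : ∀ x a b v w : Matrix n n ℂ, ip (br x a) (br x b) v w = trace (xᴴ * (br v aᴴ + br w bᴴ)) := by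
    intro x a b v w
    unfold ip
    rw [id2, id2, mul_add, trace_add]
  refine ⟨id1, h2, ?_, ?_, ?_, ?_, ?_, ?_, ?_⟩
  · intro x a b v w
    rw [h2, h2, conjTranspose_conjTranspose, ← trace_conjTranspose, conjTranspose_mul, conjTranspose_add, br_conj,
      br_conj, conjTranspose_conjTranspose, conjTranspose_conjTranspose, conjTranspose_conjTranspose,
      trace_mul_comm _ x, ← trace_add, ← mul_add]
    congr 2
    unfold dm
    abel
  · intro a b
    unfold ip nsq
    rw [tr_sq, tr_sq]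
    push_cast
    rfl
  · intro x y a b hx hy
    rw [h2, h2, hx.eq, hy.eq]
    unfold mom
    rw [mul_add, mul_add, mul_add, trace_add, trace_add, trace_add, ← id5 x y a aᴴ, ← id5 x y b bᴴ]
    ring
  · intro K a b hK
    unfold dm mom
    rw [br_conj, br_conj, hK]
    unfold br
    noncomm_ring
  · intro x a b
    unfold ip mom
    rw [id7, id7, mul_add, trace_add]
  · intro a b v w
    unfold ip
    rw [star_add, ← trace_conjTranspose, ← trace_conjTranspose, conjTranspose_mul, conjTranspose_mul,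
      conjTranspose_conjTranspose, conjTranspose_conjTranspose]
  · intro a b h
    unfold nsq at h
    have h1 : ‖a‖ ^ 2 = 0 := by nlinarith [sq_nonneg ‖a‖, sq_nonneg ‖b‖]
    have h2 : ‖b‖ ^ 2 = 0 := by nlinarith [sq_nonneg ‖a‖, sq_nonneg ‖b‖]
    exact ⟨norm_eq_zero.1 (pow_eq_zero_iff two_ne_zero |>.1 h1), norm_eq_zero.1 (pow_eq_zero_iff two_ne_zero |>.1 h2)⟩

end Pool.Agent.Helper9.NO
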