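import Pool.Agent.Helper67.NO.St2

/-!
# Project NO, module SM2 (helper9)
-/

set_option autoImplicit false

namespace Pool.Agent.Helper9.NO

open Pool.Agent.Helper67.NO
open Matrix
open scoped Matrix.Norms.Frobenius ContDiff Topology

section Calc

variable {n m : Type} [Fintype n] [DecidableEq n] [Fintype m] [DecidableEq m]

/-- a real linear map kills the derivative of a curve in its kernel -/
theorem ker_deriv {E F : Type*} [NormedAddCommGroup E] [NormedSpace ℝ E]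
    [NormedAddCommGroup F] [NormedSpace ℝ F] (L : E →L[ℝ] F) {c : ℝ → E} {e : E}
    (hc : HasDerivAt c e 0) (h0 : ∀ᶠ t in 𝓝 (0 : ℝ), L (c t) = 0) : L e = 0 := by
  have h1 : HasDerivAt (fun t => L (c t)) (L e) 0 := L.hasFDerivAt.comp_hasDerivAt 0 hc
  have h2 : HasDerivAt (fun t => L (c t)) 0 0 := by
    refine (hasDerivAt_const (0 : ℝ) (0 : F)).congr_of_eventuallyEq ?_
    filter_upwards [h0] with t ht using ht
  exact h1.unique h2

/-- conjugate transpose as a continuous real linear map -/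
noncomputable def ctL : Matrix n n ℂ →L[ℝ] Matrix n n ℂ :=
  LinearMap.toContinuousLinearMap
    { toFun := fun x => xᴴ
      map_add' := fun x y => Matrix.conjTranspose_add x y
      map_smul' := fun c x => by
        ext i j
        simp [Matrix.conjTranspose_apply] }

theorem ctL_apply (x : Matrix n n ℂ) : ctL x = xᴴ := rfl

/-- block diagonal as a continuous real linear map -/
noncomputable def bdL : (Matrix n n ℂ × Matrix m m ℂ) →L[ℝ] Matrix (n ⊕ m) (n ⊕ m) ℂ :=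
  LinearMap.toContinuousLinearMap
    { toFun := fun p => bd p.1 p.2
      map_add' := fun x y => by
        ext i j
        rcases i with i | i <;> rcases j with j | j <;> simp [bd]
      map_smul' := fun c x => by
        ext i j
        rcases i with i | i <;> rcases j with j | j <;> simp [bd] }

theorem bdL_apply (x : Matrix n n ℂ) (y : Matrix m m ℂ) : bdL (x, y) = bd x y := rfl

/-- first block as a continuous real linear map -/
noncomputable def b11L : Matrix (n ⊕ m) (n ⊕ m) ℂ →L[ℝ] Matrix n n ℂ :=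
  LinearMap.toContinuousLinearMap
    { toFun := fun x => x.toBlocks₁₁
      map_add' := fun x y => by ext i j; simp [Matrix.toBlocks₁₁]
      map_smul' := fun c x => by ext i j; simp [Matrix.toBlocks₁₁] }

theorem b11L_apply (x : Matrix (n ⊕ m) (n ⊕ m) ℂ) : b11L x = x.toBlocks₁₁ := rfl

/-- an entry as a continuous real linear map -/
noncomputable def entL (p q : n) : Matrix n n ℂ →L[ℝ] ℂ :=
  LinearMap.toContinuousLinearMap
    { toFun := fun x => x p q
      map_add' := fun x y => rfl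
      map_smul' := fun c x => rfl }

theorem entL_apply (p q : n) (x : Matrix n n ℂ) : entL p q x = x p q := rfl

theorem cd_exp (x : Matrix n n ℂ) : ContDiffAt ℝ ∞ (fun y : Matrix n n ℂ => NormedSpace.exp y) x :=
  (NormedSpace.exp_analytic (𝕂 := ℝ) x).contDiffAt

theorem cd_inv {E : Type*} [NormedAddCommGroup E] [NormedSpace ℝ E] {f : E → Matrix n n ℂ} {x : E}
    (hf : ContDiffAt ℝ ∞ f x) (hu : IsUnit (f x)) : ContDiffAt ℝ ∞ (fun y => (f y)⁻¹) x := by
  obtain ⟨u, hu⟩ := hu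
  have h1 : ContDiffAt ℝ ∞ (Ring.inverse : Matrix n n ℂ → Matrix n n ℂ) (f x) := by
    rw [← hu]; exact contDiffAt_ringInverse ℝ u
  have h2 := h1.comp x hf
  refine h2.congr_of_eventuallyEq (Filter.Eventually.of_forall fun y => ?_)
  simp [Matrix.nonsing_inv_eq_ringInverse]

theorem hd_inv {f : ℝ → Matrix n n ℂ} {f' : Matrix n n ℂ}
    (hf : HasDerivAt f f' 0) (h1 : f 0 = 1) : HasDerivAt (fun y => (f y)⁻¹) (-f') 0 := by
  have h2 : HasFDerivAt (Ring.inverse : Matrix n n ℂ → Matrix n n ℂ)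
      (-ContinuousLinearMap.mulLeftRight ℝ (Matrix n n ℂ) ↑(1 : (Matrix n n ℂ)ˣ)⁻¹ ↑(1 : (Matrix n n ℂ)ˣ)⁻¹)
      ((1 : (Matrix n n ℂ)ˣ) : Matrix n n ℂ) := hasFDerivAt_ringInverse _
  have h3 : f 0 = ((1 : (Matrix n n ℂ)ˣ) : Matrix n n ℂ) := by simp [h1]
  rw [← h3] at h2
  have h4 := h2.comp_hasDerivAt (0 : ℝ) hf
  have h5 : (-ContinuousLinearMap.mulLeftRight ℝ (Matrix n n ℂ) ↑(1 : (Matrix n n ℂ)ˣ)⁻¹
      ↑(1 : (Matrix n n ℂ)ˣ)⁻¹) f' = -f' := by
    simp [ContinuousLinearMap.mulLeftRight_apply]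
  rw [h5] at h4
  refine h4.congr_of_eventuallyEq (Filter.Eventually.of_forall fun y => ?_)
  simp [Matrix.nonsing_inv_eq_ringInverse]

/-- smoothness of `mom` along a conjugation -/
theorem cd_momconj {E : Type*} [NormedAddCommGroup E] [NormedSpace ℝ E] {f : E → Matrix n n ℂ}
    {x : E} (hf : ContDiffAt ℝ ∞ f x) (hu : IsUnit (f x)) (a b : Matrix n n ℂ) :
    ContDiffAt ℝ ∞ (fun y => mom (f y * a * (f y)⁻¹) (f y * b * (f y)⁻¹)) x := by
  have hi := cd_inv hf hu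
  have hP : ContDiffAt ℝ ∞ (fun y => f y * a * (f y)⁻¹) x :=
    (hf.mul contDiffAt_const).mul hi
  have hQ : ContDiffAt ℝ ∞ (fun y => f y * b * (f y)⁻¹) x :=
    (hf.mul contDiffAt_const).mul hi
  have hPs : ContDiffAt ℝ ∞ (fun y => (f y * a * (f y)⁻¹)ᴴ) x :=
    (ctL (n := n)).contDiff.contDiffAt.comp x hP
  have hQs : ContDiffAt ℝ ∞ (fun y => (f y * b * (f y)⁻¹)ᴴ) x :=
    (ctL (n := n)).contDiff.contDiffAt.comp x hQ
  unfold mom br
  exact ((hP.mul hPs).sub (hPs.mul hP)).add ((hQ.mul hQs).sub (hQs.mul hQ))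

/-- derivative of `mom` along a conjugation -/
theorem hd_momconj {f : ℝ → Matrix n n ℂ} {f' : Matrix n n ℂ} (hf : HasDerivAt f f' 0)
    (h1 : f 0 = 1) (a b : Matrix n n ℂ) :
    HasDerivAt (fun y => mom (f y * a * (f y)⁻¹) (f y * b * (f y)⁻¹))
      (dm a b (br f' a) (br f' b)) 0 := by
  have hi := hd_inv hf h1
  have key : ∀ c : Matrix n n ℂ, HasDerivAt (fun y => f y * c * (f y)⁻¹) (br f' c) 0 := by
    intro c
    have h := (hf.mul_const c).mul hi
    have e : f' * c * (f 0)⁻¹ + f 0 * c * -f' = br f' c := by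
      rw [h1]; simp [br, sub_eq_add_neg]
    rw [e] at h
    exact h
  have keys : ∀ c : Matrix n n ℂ, HasDerivAt (fun y => (f y * c * (f y)⁻¹)ᴴ) (br f' c)ᴴ 0 := by
    intro c
    exact (ctL (n := n)).hasFDerivAt.comp_hasDerivAt 0 (key c)
  have h0 : ∀ c : Matrix n n ℂ, f 0 * c * (f 0)⁻¹ = c := by
    intro c; rw [h1]; simp
  have keyb : ∀ c : Matrix n n ℂ,
      HasDerivAt (fun y => br (f y * c * (f y)⁻¹) (f y * c * (f y)⁻¹)ᴴ)
        (br (br f' c) cᴴ + br c (br f' c)ᴴ) 0 := by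
    intro c
    have h := ((key c).mul (keys c)).sub ((keys c).mul (key c))
    simp only [h0] at h
    have e : br f' c * cᴴ + c * (br f' c)ᴴ - ((br f' c)ᴴ * c + cᴴ * br f' c)
        = br (br f' c) cᴴ + br c (br f' c)ᴴ := by
      unfold br; abel
    rw [e] at h
    exact h
  exact (keyb a).add (keyb b)

end Calc

section Main

variable {ι κ : Type} [Fintype ι] [DecidableEq ι] [Fintype κ] [DecidableEq κ]

/-- rank type is invariant under conjugation -/
theorem RT_conj (lev : κ → ℕ) (A g : Matrix ι ι ℂ) (hg : IsUnit g) (h : RT lev A) :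
    RT lev (g * A * g⁻¹) := by
  intro i
  have hd : IsUnit g.det := (Matrix.isUnit_iff_isUnit_det g).1 hg
  have hdi : IsUnit (g⁻¹).det := Matrix.isUnit_nonsing_inv_det g hd
  have e : (g * A * g⁻¹) ^ (i + 1) = g * A ^ (i + 1) * g⁻¹ := by
    have : ∀ k : ℕ, (g * A * g⁻¹) ^ k = g * A ^ k * g⁻¹ := by
      intro k
      induction k with
      | zero => simp [Matrix.mul_nonsing_inv g hd]
      | succ k ih =>
        rw [pow_succ, ih, pow_succ]
        have hh : g⁻¹ * (g * A * g⁻¹) = A * g⁻¹ := by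
          rw [mul_assoc g A g⁻¹, ← mul_assoc g⁻¹ g, Matrix.nonsing_inv_mul g hd, one_mul]
        rw [mul_assoc (g * A ^ k), hh]
        simp [mul_assoc]
    exact this (i + 1)
  rw [e, Matrix.rank_mul_eq_left_of_isUnit_det g⁻¹ (g * A ^ (i + 1)) hdi,
    Matrix.rank_mul_eq_right_of_isUnit_det g (A ^ (i + 1)) hd, h i]

/-- conjugation of a chain -/
theorem Ch_conj (h1 : StBL) (h2 : StLVL) (h3 : StBDA) (lev : κ → ℕ) (A g : Matrix ι ι ℂ)
    (a b : Matrix (ι ⊕ κ) (ι ⊕ κ) ℂ) (y : Matrix κ κ ℂ) (hg : IsUnit g) (hy : Lvl lev y)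
    (hc : Ch lev A a b) :
    Ch lev (g * A * g⁻¹)
      (bd g (NormedSpace.exp y) * a * (bd g (NormedSpace.exp y))⁻¹)
      (bd g (NormedSpace.exp y) * b * (bd g (NormedSpace.exp y))⁻¹) := by
  obtain ⟨-, -, -, bl4, bl5, -, -, -⟩ := h1 ι κ lev
  obtain ⟨-, -, -, -, lv5, lv6⟩ := h2 κ lev
  obtain ⟨bd1, -, -, -, -, -, bd7⟩ := h3 ι κ
  have hu : IsUnit (NormedSpace.exp y) := Matrix.isUnit_exp y
  have hE : Lvl lev (NormedSpace.exp y) := (lv5 y hy).2.2
  have hEi : Lvl lev (NormedSpace.exp y)⁻¹ := lv6 _ hu hE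
  obtain ⟨hU, hinv⟩ := bd7 g (NormedSpace.exp y) hg hu
  obtain ⟨ha, hb, hab⟩ := hc
  have hUd : IsUnit (bd g (NormedSpace.exp y)).det := (Matrix.isUnit_iff_isUnit_det _).1 hU
  refine ⟨?_, ?_, ?_⟩
  · have := (bl4 a ha g _ hE).1
    rw [hinv]
    exact (bl4 _ this g⁻¹ _ hEi).2
  · have := (bl5 b hb g _ hE).1
    rw [hinv]
    exact (bl5 _ this g⁻¹ _ hEi).2
  · have hGG := Matrix.nonsing_inv_mul _ hUd
    have e1 : ∀ u v : Matrix (ι ⊕ κ) (ι ⊕ κ) ℂ,
        (bd g (NormedSpace.exp y) * u * (bd g (NormedSpace.exp y))⁻¹) *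
          (bd g (NormedSpace.exp y) * v * (bd g (NormedSpace.exp y))⁻¹)
        = bd g (NormedSpace.exp y) * (u * v) * (bd g (NormedSpace.exp y))⁻¹ := by
      intro u v
      calc _ = bd g (NormedSpace.exp y) * u * ((bd g (NormedSpace.exp y))⁻¹ *
          bd g (NormedSpace.exp y)) * v * (bd g (NormedSpace.exp y))⁻¹ := by
            simp only [mul_assoc]
        _ = _ := by rw [hGG, mul_one]; simp only [mul_assoc]
    have e2 : br (bd g (NormedSpace.exp y) * a * (bd g (NormedSpace.exp y))⁻¹)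
        (bd g (NormedSpace.exp y) * b * (bd g (NormedSpace.exp y))⁻¹)
        = bd g (NormedSpace.exp y) * br a b * (bd g (NormedSpace.exp y))⁻¹ := by
      unfold br
      rw [e1, e1, mul_sub, sub_mul]
    rw [e2, hab, hinv, (bd1 _ _ _ _).1, (bd1 _ _ _ _).1]
    simp

theorem b11_bd (x : Matrix ι ι ℂ) (y : Matrix κ κ ℂ) : (bd x y).toBlocks₁₁ = x := by
  simp [bd]

/-- **SM2** -/
theorem pSM2 (h1 : StBL) (h2 : StLVL) (h3 : StBDA) (_h4 : StALG) (h5 : StRNK) (h6 : StMIN)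
    (_h7 : StCRI) (h8 : StIFT) (h9 : StSM1) : StSM2 := by
  intro ι κ _ _ _ _ lev A hA
  obtain ⟨a, b, hc, ⟨H, hH⟩, -⟩ := (h6 ι κ lev).1 A hA
  have hS : Stab a b := h5 ι κ lev A a b hA hc
  obtain ⟨ξ, hξ, hξ1, hev⟩ := h8 ι κ lev a b hc.1 hc.2.1 hS ⟨H, hH⟩
  have hHm : Hm lev A = H := ((h9 ι κ lev A hA).2 a b H hc hH).1
  obtain ⟨-, -, -, -, -, -, bl7, -⟩ := h1 ι κ lev
  obtain ⟨-, -, -, bd11, -, bdinj, -⟩ := h3 ι κ
  -- the conjugating matrix
  set G : Matrix ι ι ℂ → Matrix (ι ⊕ κ) (ι ⊕ κ) ℂ := fun g => bd g (NormedSpace.exp (ξ g)) with hG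
  have hG1 : G 1 = 1 := by
    simp only [hG, hξ1, NormedSpace.exp_zero]
    exact bd11
  have hGcd : ContDiffAt ℝ ∞ G 1 := by
    have he : ContDiffAt ℝ ∞ (fun g => NormedSpace.exp (ξ g)) 1 :=
      (cd_exp (ξ 1)).comp (1 : Matrix ι ι ℂ) hξ
    have hp : ContDiffAt ℝ ∞ (fun g : Matrix ι ι ℂ => (g, NormedSpace.exp (ξ g))) 1 :=
      contDiffAt_id.prodMk he
    exact (bdL (n := ι) (m := κ)).contDiff.contDiffAt.comp (1 : Matrix ι ι ℂ) hp
  -- the moment map near `1`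
  have hmain : ∀ᶠ g in 𝓝 (1 : Matrix ι ι ℂ),
      mom (G g * a * (G g)⁻¹) (G g * b * (G g)⁻¹) = bd (Hm lev (g * A * g⁻¹)) 0 := by
    filter_upwards [hev] with g hg
    obtain ⟨hgu, hgl, -, H', hH'⟩ := hg
    have hch := Ch_conj h1 h2 h3 lev A g a b (ξ g) hgu hgl hc
    have hrt := RT_conj lev A g hgu hA
    have := ((h9 ι κ lev (g * A * g⁻¹) hrt).2 _ _ H' hch hH').1
    rw [this]
    exact hH'
  have hcdm : ContDiffAt ℝ ∞
      (fun g => mom (G g * a * (G g)⁻¹) (G g * b * (G g)⁻¹)) (1 : Matrix ι ι ℂ) :=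
    cd_momconj hGcd (by rw [hG1]; exact isUnit_one) a b
  have hcdH : ContDiffAt ℝ ∞ (fun g : Matrix ι ι ℂ => Hm lev (g * A * g⁻¹)) 1 := by
    have := (b11L (n := ι) (m := κ)).contDiff.contDiffAt.comp (1 : Matrix ι ι ℂ) hcdm
    refine this.congr_of_eventuallyEq ?_
    filter_upwards [hmain] with g hg
    show Hm lev (g * A * g⁻¹) = (mom (G g * a * (G g)⁻¹) (G g * b * (G g)⁻¹)).toBlocks₁₁
    rw [hg, b11_bd]
  refine ⟨hcdH, ?_, a, b, hc, hS, by rw [hHm]; exact hH, ?_⟩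
  · obtain ⟨h, y, -, hm, hh, -⟩ := bl7 a b hc.1 hc.2.1
    rw [hHm]
    have : H = h := (bdinj H h 0 y (by rw [← hH, ← hm])).1
    rw [this]; exact hh
  intro X
  -- the curve `t ↦ 1 + t X`
  have hcur : HasDerivAt (fun t : ℝ => (1 : Matrix ι ι ℂ) + t • X) X 0 := by
    have h := ((hasDerivAt_id (0 : ℝ)).smul_const X).const_add (1 : Matrix ι ι ℂ)
    rw [one_smul] at h
    exact h
  have hcur0 : (1 : Matrix ι ι ℂ) + (0 : ℝ) • X = 1 := by simp
  have hcurt : Filter.Tendsto (fun t : ℝ => (1 : Matrix ι ι ℂ) + t • X) (𝓝 0) (𝓝 1) := by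
    have h : Filter.Tendsto (fun t : ℝ => (1 : Matrix ι ι ℂ) + t • X) (𝓝 0)
        (𝓝 ((1 : Matrix ι ι ℂ) + (0 : ℝ) • X)) := hcur.continuousAt
    rw [hcur0] at h
    exact h
  have hξd : HasFDerivAt ξ (fderiv ℝ ξ 1) (1 + (0 : ℝ) • X) := by
    rw [hcur0]
    exact (hξ.differentiableAt (by simp)).hasFDerivAt
  have hξc : HasDerivAt (fun t : ℝ => ξ (1 + t • X)) (fderiv ℝ ξ 1 X) 0 :=
    hξd.comp_hasDerivAt (0 : ℝ) hcur
  have hevt := hcurt.eventually hev
  refine ⟨fderiv ℝ ξ 1 X, ?_, ?_, ?_⟩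
  · intro p q hpq
    by_contra hne
    apply hpq
    have h := ker_deriv (entL p q) hξc (by
      filter_upwards [hevt] with t ht
      show ξ (1 + t • X) p q = 0
      by_contra h0
      exact hne (ht.2.1 p q h0))
    exact h
  · have := ker_deriv ((ctL (n := κ)) - ContinuousLinearMap.id ℝ (Matrix κ κ ℂ)) hξc (by
      filter_upwards [hevt] with t ht
      have hh : (ξ (1 + t • X))ᴴ = ξ (1 + t • X) := ht.2.2.1
      show (ξ (1 + t • X))ᴴ - ξ (1 + t • X) = 0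
      rw [hh, sub_self])
    have h' : (fderiv ℝ ξ 1 X)ᴴ - fderiv ℝ ξ 1 X = 0 := this
    exact sub_eq_zero.1 h'
  · -- derivative of both sides
    have hexp : HasDerivAt (fun t : ℝ => NormedSpace.exp (ξ (1 + t • X))) (fderiv ℝ ξ 1 X) 0 := by
      have h0 : ξ (1 + (0 : ℝ) • X) = 0 := by rw [hcur0, hξ1]
      have he : HasFDerivAt (NormedSpace.exp : Matrix κ κ ℂ → Matrix κ κ ℂ)
          (1 : Matrix κ κ ℂ →L[ℝ] Matrix κ κ ℂ) (ξ (1 + (0 : ℝ) • X)) := by
        rw [h0]; exact hasFDerivAt_exp_zero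
      exact he.comp_hasDerivAt (0 : ℝ) hξc
    have hGd : HasDerivAt (fun t : ℝ => G (1 + t • X)) (bd X (fderiv ℝ ξ 1 X)) 0 :=
      (bdL (n := ι) (m := κ)).hasFDerivAt.comp_hasDerivAt (0 : ℝ) (hcur.prodMk hexp)
    have hL := hd_momconj hGd (by rw [hcur0, hG1]) a b
    have hHd : HasFDerivAt (fun g : Matrix ι ι ℂ => Hm lev (g * A * g⁻¹))
        (fderiv ℝ (fun g : Matrix ι ι ℂ => Hm lev (g * A * g⁻¹)) 1) (1 + (0 : ℝ) • X) := by
      rw [hcur0]
      exact (hcdH.differentiableAt (by simp)).hasFDerivAt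
    have hHc := hHd.comp_hasDerivAt (0 : ℝ) hcur
    have hR : HasDerivAt (fun t : ℝ => bd (Hm lev ((1 + t • X) * A * (1 + t • X)⁻¹))
        (0 : Matrix κ κ ℂ)) (bd (DHm lev A X) 0) 0 :=
      (bdL (n := ι) (m := κ)).hasFDerivAt.comp_hasDerivAt (0 : ℝ)
        (hHc.prodMk (hasDerivAt_const (0 : ℝ) (0 : Matrix κ κ ℂ)))
    have hR' := hR.congr_of_eventuallyEq (f₁ := fun t : ℝ =>
      mom (G (1 + t • X) * a * (G (1 + t • X))⁻¹) (G (1 + t • X) * b * (G (1 + t • X))⁻¹)) (by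
        filter_upwards [hcurt.eventually hmain] with t ht using ht)
    exact hL.unique hR'

end Main

end Pool.Agent.Helper9.NO
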